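import Mathlib

/-!
# A densely locally minimal group with a closed copy of the `p`-adic integers

A Hausdorff topological group `G` is locally minimal if it has a neighbourhood `V` of the identity
such that no strictly coarser Hausdorff group topology makes `V` a neighbourhood of the identity.
The question is whether, under the Hilbert-Smith conjecture, every closed abelian subgroup of a
locally compact group which is not totally disconnected, and all of whose dense subgroups are
locally minimal, is a Lie group. The answer is no. In a locally compact group with a neighbourhood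
of the identity that contains no closed normal subgroup but the trivial one, all dense subgroups are
locally minimal. The group `ℝ × (ℚ_p ⋊ ℤ)`, where `ℤ` acts by the powers of `p`, has this property;
it is metabelian, and it contains the closed subgroup `ℤ_p`.
-/

set_option autoImplicit false

open Set Filter Topology

namespace Pool.Agent.Results.MP_6af4f0_al.SmallNormalSubgroups

/-- The topological group `G` is locally minimal: some neighbourhood `V` of the identity is a
neighbourhood of the identity in no strictly coarser Hausdorff group topology. -/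
def LocallyMinimal (G : Type) [Group G] [τ : TopologicalSpace G] : Prop :=
  ∃ V ∈ 𝓝 (1 : G), ∀ σ : TopologicalSpace G, τ ≤ σ → @IsTopologicalGroup G σ _ →
    @T2Space G σ → V ∈ @nhds G σ 1 → σ = τ

/-- The topological group `A` admits a structure of a real Lie group. -/
def IsLie (A : Type) [Group A] [TopologicalSpace A] : Prop :=
  ∃ (m : ℕ) (_ : ChartedSpace (EuclideanSpace ℝ (Fin m)) A),
    LieGroup (modelWithCornersSelf ℝ (EuclideanSpace ℝ (Fin m))) ((⊤ : ℕ∞) : WithTop ℕ∞) A

/-! ### dense subgroups of groups without small normal subgroups -/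

section Dense

variable {G : Type} [Group G] [TopologicalSpace G] [IsTopologicalGroup G]

/-- the intersection of the closures of the neighbourhoods of the identity of a coarser topology -/
def core (H : Subgroup G) (σ : TopologicalSpace H) : Set G :=
  {x | ∀ U ∈ @nhds H σ 1, x ∈ closure ((fun h : H => (h : G)) '' U)}

theorem core_conj (H : Subgroup G) (hH : Dense (H : Set G)) (σ : TopologicalSpace H)
    (hσg : @IsTopologicalGroup H σ _) {x : G} (hx : x ∈ core H σ) (g : G) :
    g * x * g⁻¹ ∈ core H σ := by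
  intro U hU
  -- the set of all g for which this holds is closed and contains H
  have hcl : IsClosed {g : G | ∀ U ∈ @nhds H σ 1, g * x * g⁻¹ ∈
      closure ((fun h : H => (h : G)) '' U)} := by
    simp only [setOf_forall]
    refine isClosed_iInter fun U => isClosed_iInter fun _ => ?_
    exact isClosed_closure.preimage (by fun_prop)
  have hsub : (H : Set G) ⊆ {g : G | ∀ U ∈ @nhds H σ 1, g * x * g⁻¹ ∈
      closure ((fun h : H => (h : G)) '' U)} := by
    intro h hh U hU
    set h' : H := ⟨h, hh⟩
    have hc : @Continuous H H σ σ (fun z : H => h' * z * h'⁻¹) := by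
      letI := σ
      haveI := hσg
      exact (continuous_const.mul continuous_id).mul continuous_const
    have h1 : (fun z : H => h' * z * h'⁻¹) ⁻¹' U ∈ @nhds H σ 1 := by
      letI := σ
      refine hc.continuousAt.preimage_mem_nhds ?_
      simpa using hU
    have h2 := hx _ h1
    have h3 : MapsTo (fun z : G => h * z * h⁻¹)
        ((fun h : H => (h : G)) '' ((fun z : H => h' * z * h'⁻¹) ⁻¹' U))
        ((fun h : H => (h : G)) '' U) := by
      rintro _ ⟨z, hz, rfl⟩
      exact ⟨h' * z * h'⁻¹, hz, rfl⟩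
    exact map_mem_closure (f := fun z : G => h * z * h⁻¹) (by fun_prop) h2 h3
  have h1 : g ∈ closure (H : Set G) := hH g
  exact (closure_minimal hsub hcl h1) U hU

theorem core_mul (H : Subgroup G) (σ : TopologicalSpace H) (hσg : @IsTopologicalGroup H σ _)
    {x y : G} (hx : x ∈ core H σ) (hy : y ∈ core H σ) : x * y ∈ core H σ := by
  intro U hU
  obtain ⟨U', hU', hUU⟩ : ∃ U' ∈ @nhds H σ 1, ∀ a ∈ U', ∀ b ∈ U', a * b ∈ U := by
    letI := σ
    haveI := hσg
    obtain ⟨V, hVo, hV1, hV⟩ := exists_open_nhds_one_mul_subset hU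
    exact ⟨V, hVo.mem_nhds hV1, fun a ha b hb => hV (mul_mem_mul ha hb)⟩
  exact map_mem_closure₂ continuous_mul (hx U' hU') (hy U' hU') (by
    rintro _ ⟨a, ha, rfl⟩ _ ⟨b, hb, rfl⟩
    exact ⟨a * b, hUU a ha b hb, rfl⟩)

theorem core_inv (H : Subgroup G) (σ : TopologicalSpace H) (hσg : @IsTopologicalGroup H σ _)
    {x : G} (hx : x ∈ core H σ) : x⁻¹ ∈ core H σ := by
  intro U hU
  have h1 : (fun z : H => z⁻¹) ⁻¹' U ∈ @nhds H σ 1 := by
    letI := σ
    haveI := hσg
    refine continuous_inv.continuousAt.preimage_mem_nhds ?_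
    simpa using hU
  exact map_mem_closure continuous_inv (hx _ h1) (by
    rintro _ ⟨z, hz, rfl⟩
    exact ⟨z⁻¹, hz, rfl⟩)

theorem locallyMinimal_of_dense [T2Space G] [LocallyCompactSpace G] {V₀ : Set G}
    (hV₀ : V₀ ∈ 𝓝 (1 : G))
    (hno : ∀ N : Subgroup G, N.Normal → IsClosed (N : Set G) → (N : Set G) ⊆ V₀ → N = ⊥)
    (H : Subgroup G) (hH : Dense (H : Set G)) : LocallyMinimal H := by
  obtain ⟨W, hW, hWV, hWc⟩ := local_compact_nhds hV₀
  have hWcl : IsClosed W := hWc.isClosed
  refine ⟨Subtype.val ⁻¹' W, continuous_subtype_val.continuousAt.preimage_mem_nhds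
    (by simpa using hW), ?_⟩
  intro σ hσ hσg _ hVσ
  -- closures of images of subsets of the neighbourhood are contained in W
  have hclW : ∀ U : Set H, U ⊆ Subtype.val ⁻¹' W →
      closure ((fun h : H => (h : G)) '' U) ⊆ W := by
    intro U hU
    refine closure_minimal ?_ hWcl
    rintro _ ⟨z, hz, rfl⟩
    exact hU hz
  let K : Subgroup G :=
    { carrier := core H σ
      mul_mem' := fun {a b} ha hb => core_mul H σ hσg ha hb
      one_mem' := by
        intro U hU
        refine subset_closure ⟨1, ?_, rfl⟩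
        letI := σ
        exact mem_of_mem_nhds hU
      inv_mem' := fun {a} ha => core_inv H σ hσg ha }
  have hK1 : K = ⊥ := by
    refine hno K ⟨fun x hx g => core_conj H hH σ hσg hx g⟩ ?_ ?_
    · show IsClosed (core H σ)
      unfold core
      simp only [setOf_forall]
      exact isClosed_iInter fun U => isClosed_iInter fun _ => isClosed_closure
    · intro x hx
      exact hWV (hclW _ subset_rfl (hx _ hVσ))
  -- the neighbourhoods of the identity agree
  have hle : @nhds H σ 1 ≤ @nhds H instTopologicalSpaceSubtype 1 := by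
    intro O hO
    obtain ⟨O', hO', hO'O⟩ := (mem_nhds_subtype (H : Set G) 1 O).1 hO
    let ι : Type := {U : Set H // U ∈ @nhds H σ 1 ∧ U ⊆ Subtype.val ⁻¹' W}
    let Z : ι → Set G := fun i => closure ((fun h : H => (h : G)) '' i.1)
    haveI : Nonempty ι := ⟨⟨_, hVσ, subset_rfl⟩⟩
    have hZW : ∀ i, Z i ⊆ W := fun i => hclW i.1 i.2.2
    have hZcl : ∀ i, IsClosed (Z i) := fun i => isClosed_closure
    have hZc : ∀ i, IsCompact (Z i) := fun i => hWc.of_isClosed_subset (hZcl i) (hZW i)
    have hdir : Directed (· ⊇ ·) Z := by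
      intro i j
      refine ⟨⟨i.1 ∩ j.1, Filter.inter_mem i.2.1 j.2.1, inter_subset_left.trans i.2.2⟩, ?_, ?_⟩
      · exact closure_mono (image_mono inter_subset_left)
      · exact closure_mono (image_mono inter_subset_right)
    obtain ⟨i, hi⟩ := exists_subset_nhds_of_isCompact' hdir hZc hZcl (U := O') (by
      intro x hx
      have hxK : x ∈ K := by
        intro U hU
        have h1 := mem_iInter.1 hx ⟨U ∩ Subtype.val ⁻¹' W, Filter.inter_mem hU hVσ,
          inter_subset_right⟩
        exact closure_mono (image_mono inter_subset_left) h1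
      rw [hK1, Subgroup.mem_bot] at hxK
      rw [hxK]
      exact hO')
    refine Filter.mem_of_superset i.2.1 fun z hz => hO'O ?_
    exact hi (subset_closure ⟨z, hz, rfl⟩)
  refine IsTopologicalGroup.ext hσg inferInstance (le_antisymm hle ?_)
  exact nhds_mono hσ

end Dense

/-! ### the group -/

/-- The group `ℝ × (ℚ_p ⋊ ℤ)`, where the integer `k` acts on `ℚ_p` by multiplication by `p ^ k`. -/
structure AG (p : ℕ) [Fact p.Prime] where
  /-- the real component -/
  t : ℝ
  /-- the `p`-adic component -/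
  x : ℚ_[p]
  /-- the integer component -/
  k : ℤ

namespace AG

variable {p : ℕ} [Fact p.Prime]

theorem ext' {a b : AG p} (h1 : a.t = b.t) (h2 : a.x = b.x) (h3 : a.k = b.k) : a = b := by
  cases a; cases b; simp_all

theorem p_ne : (p : ℚ_[p]) ≠ 0 := by
  exact_mod_cast (Fact.out : p.Prime).ne_zero

noncomputable instance : Group (AG p) where
  mul a b := ⟨a.t + b.t, a.x + (p : ℚ_[p]) ^ a.k * b.x, a.k + b.k⟩
  one := ⟨0, 0, 0⟩
  inv a := ⟨-a.t, -((p : ℚ_[p]) ^ (-a.k) * a.x), -a.k⟩
  mul_assoc a b c := by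
    refine ext' (add_assoc _ _ _) ?_ (add_assoc _ _ _)
    show a.x + (p : ℚ_[p]) ^ a.k * b.x + (p : ℚ_[p]) ^ (a.k + b.k) * c.x
      = a.x + (p : ℚ_[p]) ^ a.k * (b.x + (p : ℚ_[p]) ^ b.k * c.x)
    rw [zpow_add₀ p_ne]
    ring
  one_mul a := by
    refine ext' (zero_add _) ?_ (zero_add _)
    show 0 + (p : ℚ_[p]) ^ (0 : ℤ) * a.x = a.x
    simp
  mul_one a := by
    refine ext' (add_zero _) ?_ (add_zero _)
    show a.x + (p : ℚ_[p]) ^ a.k * 0 = a.x
    simp
  inv_mul_cancel a := by
    refine ext' (neg_add_cancel _) ?_ (neg_add_cancel _)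
    show -((p : ℚ_[p]) ^ (-a.k) * a.x) + (p : ℚ_[p]) ^ (-a.k) * a.x = 0
    ring

theorem mul_def (a b : AG p) : a * b = ⟨a.t + b.t, a.x + (p : ℚ_[p]) ^ a.k * b.x, a.k + b.k⟩ := rfl
theorem inv_def (a : AG p) : a⁻¹ = ⟨-a.t, -((p : ℚ_[p]) ^ (-a.k) * a.x), -a.k⟩ := rfl
theorem one_def : (1 : AG p) = ⟨0, 0, 0⟩ := rfl

/-- the underlying set is the product -/
def eqv : AG p ≃ ℝ × ℚ_[p] × ℤ where
  toFun a := (a.t, a.x, a.k)
  invFun b := ⟨b.1, b.2.1, b.2.2⟩
  left_inv _ := rfl
  right_inv _ := rfl

/-- the product topology -/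
noncomputable instance : TopologicalSpace (AG p) :=
  TopologicalSpace.induced eqv inferInstance

/-- the homeomorphism with the product -/
noncomputable def hom : AG p ≃ₜ ℝ × ℚ_[p] × ℤ where
  toEquiv := eqv
  continuous_toFun := continuous_induced_dom
  continuous_invFun := by
    rw [continuous_induced_rng]
    exact continuous_id

theorem ct : Continuous (AG.t : AG p → ℝ) := continuous_fst.comp hom.continuous
theorem cx : Continuous (AG.x : AG p → ℚ_[p]) :=
  (continuous_fst.comp continuous_snd).comp hom.continuous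
theorem ck : Continuous (AG.k : AG p → ℤ) :=
  (continuous_snd.comp continuous_snd).comp hom.continuous

theorem cmk {Y : Type} [TopologicalSpace Y] {f : Y → ℝ} {g : Y → ℚ_[p]} {h : Y → ℤ}
    (hf : Continuous f) (hg : Continuous g) (hh : Continuous h) :
    Continuous fun y => (⟨f y, g y, h y⟩ : AG p) :=
  hom.symm.continuous.comp (hf.prodMk (hg.prodMk hh))

theorem cpow : Continuous fun q : ℤ × ℚ_[p] => (p : ℚ_[p]) ^ q.1 * q.2 := by
  have h1 : Continuous fun q : ℤ × ℚ_[p] => (p : ℚ_[p]) ^ q.1 :=
    (continuous_of_discreteTopology (f := fun k : ℤ => (p : ℚ_[p]) ^ k)).comp continuous_fst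
  exact h1.mul continuous_snd

instance : IsTopologicalGroup (AG p) where
  continuous_mul := by
    refine cmk ?_ ?_ ?_
    · exact (ct.comp continuous_fst).add (ct.comp continuous_snd)
    · exact (cx.comp continuous_fst).add
        (cpow.comp ((ck.comp continuous_fst).prodMk (cx.comp continuous_snd)))
    · exact (ck.comp continuous_fst).add (ck.comp continuous_snd)
  continuous_inv := by
    refine cmk ?_ ?_ ?_
    · exact ct.neg
    · exact (cpow.comp (ck.neg.prodMk cx)).neg
    · exact ck.neg

instance : T2Space (AG p) := hom.symm.t2Space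
instance : LocallyCompactSpace (AG p) := hom.isClosedEmbedding.locallyCompactSpace

/-- a neighbourhood of the identity without normal subgroups -/
def V0 : Set (AG p) := {a | |a.t| < 1 ∧ ‖a.x‖ ≤ 1 ∧ a.k = 0}

theorem V0_mem : (V0 : Set (AG p)) ∈ 𝓝 (1 : AG p) := by
  have h1 : ∀ᶠ a in 𝓝 (1 : AG p), |a.t| < 1 := by
    refine (ct.abs.tendsto 1).eventually (gt_mem_nhds ?_)
    show |(0 : ℝ)| < 1
    simp
  have h2 : ∀ᶠ a in 𝓝 (1 : AG p), ‖a.x‖ < 1 := by
    refine (cx.norm.tendsto 1).eventually (gt_mem_nhds ?_)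
    show ‖(0 : ℚ_[p])‖ < 1
    simp
  have h3 : ∀ᶠ a in 𝓝 (1 : AG p), a.k = 0 := by
    have h4 : {k : ℤ | k = 0} ∈ 𝓝 ((1 : AG p).k) := by
      show {k : ℤ | k = 0} ∈ 𝓝 (0 : ℤ)
      simp
    exact (ck.tendsto 1).eventually h4
  filter_upwards [h1, h2, h3] with a ha1 ha2 ha3
  exact ⟨ha1, ha2.le, ha3⟩

theorem no_normal (N : Subgroup (AG p)) (hN : N.Normal) (hNV : (N : Set (AG p)) ⊆ V0) :
    N = ⊥ := by
  rw [Subgroup.eq_bot_iff_forall]
  intro a ha
  obtain ⟨h1, h2, h3⟩ := hNV ha
  -- the real component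
  have ht : a.t = 0 := by
    have hpow : ∀ m : ℕ, (a ^ m).t = m * a.t := by
      intro m
      induction m with
      | zero => simp [one_def]
      | succ m ih =>
        rw [pow_succ, mul_def]
        show (a ^ m).t + a.t = _
        rw [ih]
        push_cast
        ring
    by_contra hcon
    obtain ⟨m, hm⟩ := exists_nat_gt (1 / |a.t|)
    have h4 := (hNV (N.pow_mem ha m)).1
    rw [hpow, abs_mul, Nat.abs_cast] at h4
    rw [div_lt_iff₀ (abs_pos.2 hcon)] at hm
    linarith
  have hx : a.x = 0 := by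
    by_contra hcon
    have hcj : ∀ m : ℕ, ‖(p : ℚ_[p]) ^ (-(m : ℤ)) * a.x‖ ≤ 1 := by
      intro m
      have h4 := hN.conj_mem a ha (⟨0, 0, -(m : ℤ)⟩ : AG p)
      have h5 := (hNV h4).2.1
      rw [mul_def, mul_def, inv_def] at h5
      simpa using h5
    have hp1 : (1 : ℝ) < p := by exact_mod_cast (Fact.out : p.Prime).one_lt
    obtain ⟨m, hm⟩ := pow_unbounded_of_one_lt (1 / ‖a.x‖) hp1
    have h4 := hcj m
    rw [norm_mul, norm_zpow, Padic.norm_p, zpow_neg, zpow_natCast, inv_pow, inv_inv] at h4
    rw [div_lt_iff₀ (norm_pos_iff.2 hcon)] at hm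
    linarith
  exact ext' ht hx h3

/-- the closed subgroup `ℤ_p` -/
def sub : Subgroup (AG p) where
  carrier := {a | a.t = 0 ∧ ‖a.x‖ ≤ 1 ∧ a.k = 0}
  mul_mem' := by
    rintro a b ⟨a1, a2, a3⟩ ⟨b1, b2, b3⟩
    refine ⟨?_, ?_, ?_⟩
    · show a.t + b.t = 0
      rw [a1, b1, add_zero]
    · show ‖a.x + (p : ℚ_[p]) ^ a.k * b.x‖ ≤ 1
      rw [a3, zpow_zero, one_mul]
      exact (Padic.nonarchimedean a.x b.x).trans (max_le a2 b2)
    · show a.k + b.k = 0
      rw [a3, b3, add_zero]
  one_mem' := ⟨rfl, by show ‖(0 : ℚ_[p])‖ ≤ 1; simp, rfl⟩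
  inv_mem' := by
    rintro a ⟨a1, a2, a3⟩
    refine ⟨?_, ?_, ?_⟩
    · show -a.t = 0
      rw [a1, neg_zero]
    · show ‖-((p : ℚ_[p]) ^ (-a.k) * a.x)‖ ≤ 1
      rw [a3, neg_zero, zpow_zero, one_mul, norm_neg]
      exact a2
    · show -a.k = 0
      rw [a3, neg_zero]

theorem sub_closed : IsClosed ((sub : Subgroup (AG p)) : Set (AG p)) :=
  (isClosed_eq ct continuous_const).inter
    ((isClosed_le cx.norm continuous_const).inter (isClosed_eq ck continuous_const))

theorem sub_comm (a b : AG p) (ha : a ∈ (sub : Subgroup (AG p))) (hb : b ∈ (sub : Subgroup (AG p))) :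
    a * b = b * a := by
  obtain ⟨a1, a2, a3⟩ := ha
  obtain ⟨b1, b2, b3⟩ := hb
  rw [mul_def, mul_def, a3, b3, zpow_zero, one_mul, one_mul, add_comm a.t, add_comm a.x]

/-- the isomorphism with `ℤ_p` -/
noncomputable def iso : (sub : Subgroup (AG p)) ≃ₜ* Multiplicative ℤ_[p] where
  toFun a := Multiplicative.ofAdd ⟨a.1.x, a.2.2.1⟩
  invFun z := ⟨⟨0, ((Multiplicative.toAdd z : ℤ_[p]) : ℚ_[p]), 0⟩, rfl,
    (Multiplicative.toAdd z : ℤ_[p]).2, rfl⟩
  left_inv a := Subtype.ext (ext' a.2.1.symm rfl a.2.2.2.symm)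
  right_inv z := rfl
  map_mul' a b := by
    refine congrArg Multiplicative.ofAdd (Subtype.ext ?_)
    show a.1.x + (p : ℚ_[p]) ^ a.1.k * b.1.x = a.1.x + b.1.x
    rw [a.2.2.2, zpow_zero, one_mul]
  continuous_toFun := by
    refine continuous_ofAdd.comp ?_
    exact Continuous.subtype_mk (cx.comp continuous_subtype_val) _
  continuous_invFun := by
    refine Continuous.subtype_mk (cmk continuous_const ?_ continuous_const) _
    exact continuous_subtype_val.comp continuous_toAdd

/-- the group is not totally disconnected -/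
theorem not_td : ¬ TotallyDisconnectedSpace (AG p) := by
  intro h
  have h1 : Continuous fun t : ℝ => (⟨t, 0, 0⟩ : AG p) :=
    cmk continuous_id continuous_const continuous_const
  have h2 : IsPreconnected (range fun t : ℝ => (⟨t, 0, 0⟩ : AG p)) := isPreconnected_range h1
  have h3 := h2.subsingleton
  have h4 := h3 ⟨0, rfl⟩ ⟨1, rfl⟩
  have h5 : (0 : ℝ) = 1 := congrArg AG.t h4
  exact zero_ne_one h5

end AG

/-- a totally disconnected group that is not discrete is not a Lie group -/
theorem not_isLie {A : Type} [Group A] [TopologicalSpace A] [TotallyDisconnectedSpace A]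
    (h : ¬ IsOpen ({1} : Set A)) : ¬ IsLie A := by
  rintro ⟨m, hc, hL⟩
  haveI : LocallyConnectedSpace A := ChartedSpace.locallyConnectedSpace (EuclideanSpace ℝ (Fin m)) A
  apply h
  have h1 : IsOpen (connectedComponent (1 : A)) := isOpen_connectedComponent
  rwa [connectedComponent_eq_singleton] at h1

theorem padic_not_open (p : ℕ) [Fact p.Prime] : ¬ IsOpen ({1} : Set (Multiplicative ℤ_[p])) := by
  intro h
  have h1 : IsOpen ({0} : Set ℤ_[p]) := h
  have h2 : Tendsto (fun n : ℕ => (p : ℤ_[p]) ^ n) atTop (𝓝 0) := by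
    refine tendsto_pow_atTop_nhds_zero_of_norm_lt_one ?_
    rw [PadicInt.norm_p]
    exact inv_lt_one_of_one_lt₀ (by exact_mod_cast (Fact.out : p.Prime).one_lt)
  have h3 := h2.eventually (h1.mem_nhds rfl)
  obtain ⟨n, hn⟩ := h3.exists
  have h4 : (p : ℤ_[p]) ^ n = 0 := hn
  exact pow_ne_zero n (by exact_mod_cast (Fact.out : p.Prime).ne_zero) h4

/-- **A densely locally minimal group with a closed copy of the `p`-adic integers.** For every prime
`p` there is a locally compact Hausdorff group `G` which is not totally disconnected, all of whose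
dense subgroups are locally minimal, and which has a closed abelian subgroup isomorphic to `ℤ_p`;
this subgroup is not a Lie group. -/
theorem result (p : ℕ) [Fact p.Prime] :
    ∃ (G : Type) (_ : Group G) (_ : TopologicalSpace G),
      IsTopologicalGroup G ∧ T2Space G ∧ LocallyCompactSpace G ∧ ¬ TotallyDisconnectedSpace G ∧
      (∀ H : Subgroup G, Dense (H : Set G) → LocallyMinimal H) ∧
      ∃ A : Subgroup G, IsClosed (A : Set G) ∧ (∀ a ∈ A, ∀ b ∈ A, a * b = b * a) ∧
        Nonempty (A ≃ₜ* Multiplicative ℤ_[p]) ∧ ¬ IsLie A := by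
  refine ⟨AG p, inferInstance, inferInstance, inferInstance, inferInstance, inferInstance,
    AG.not_td, ?_, AG.sub, AG.sub_closed, fun a ha b hb => AG.sub_comm a b ha hb, ⟨AG.iso⟩, ?_⟩
  · exact fun H hH => locallyMinimal_of_dense AG.V0_mem
      (fun N hN _ hNV => AG.no_normal N hN hNV) H hH
  · haveI : TotallyDisconnectedSpace (AG.sub : Subgroup (AG p)) :=
      (AG.iso (p := p)).toHomeomorph.symm.totallyDisconnectedSpace
    refine not_isLie fun h => padic_not_open p ?_
    have h1 := (AG.iso (p := p)).toHomeomorph.isOpenMap _ h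
    rw [image_singleton] at h1
    have h2 : (AG.iso (p := p)).toHomeomorph 1 = 1 := map_one (AG.iso (p := p))
    rwa [h2] at h1

end Pool.Agent.Results.MP_6af4f0_al.SmallNormalSubgroups
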